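import Mathlib

set_option autoImplicit false

/-!
# Up-color domination weight versus Roman domination number of trees
-/

namespace Pool.Agent.Results.MP_ca77af_co.RomanBound

variable {V : Type}

/-- `c` is a (proper) colouring of `G` with colours `0, 1, 2, ...`. -/
def IsColoring (G : SimpleGraph V) (c : V → ℕ) : Prop := ∀ u v, G.Adj u v → c u ≠ c v

/-- `D` is an up-color dominating `c`-set: every vertex `v` outside `D` has a neighbour `d` in `D`
with `c v < c d`, and no vertex of `D` has colour `0`. -/
def UpDom (G : SimpleGraph V) (c : V → ℕ) (D : Finset V) : Prop :=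
  (∀ v, v ∉ D → ∃ d ∈ D, G.Adj v d ∧ c v < c d) ∧ ∀ d ∈ D, c d ≠ 0

/-- The up-color domination weight: the least weight of an up-color dominating `c`-set, over all
colourings `c`. -/
noncomputable def omegaUC (G : SimpleGraph V) : ℕ :=
  sInf {w : ℕ | ∃ (c : V → ℕ) (D : Finset V), IsColoring G c ∧ UpDom G c D ∧ ∑ d ∈ D, c d = w}

/-- `f` is a Roman dominating function. -/
def IsRoman (G : SimpleGraph V) (f : V → ℕ) : Prop :=
  (∀ v, f v ≤ 2) ∧ ∀ u, f u = 0 → ∃ v, G.Adj u v ∧ f v = 2

/-- The Roman domination number. -/
noncomputable def gammaR [Fintype V] (G : SimpleGraph V) : ℕ :=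
  sInf {w : ℕ | ∃ f : V → ℕ, IsRoman G f ∧ ∑ v, f v = w}

/-- The colour of a vertex with `f`-value `a`, whose parent has `f`-value `b` and colour `k`. -/
def rule (a b k : ℕ) : ℕ :=
  if a = 2 then (if b = 2 ∧ k = 2 then 1 else 2) else (if b = 2 then 0 else 1 - k)

/-- The colour of the first vertex of a path to the root. -/
def colorW {G : SimpleGraph V} (f : V → ℕ) : ∀ {v r : V}, G.Walk v r → ℕ
  | _, _, .nil => 1
  | x, _, .cons (v := y) _ q => rule (f x) (f y) (colorW f q)

lemma colorW_range {G : SimpleGraph V} (f : V → ℕ) {v r : V} (p : G.Walk v r) :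
    (f v = 2 → colorW f p = 1 ∨ colorW f p = 2) ∧ (f v ≠ 2 → colorW f p = 0 ∨ colorW f p = 1) := by
  induction p with
  | nil => exact ⟨fun _ => Or.inl rfl, fun _ => Or.inr rfl⟩
  | @cons x y z h q ih =>
    constructor
    · intro hx
      simp only [colorW, rule, hx, if_true]
      split_ifs
      · exact Or.inl rfl
      · exact Or.inr rfl
    · intro hx
      simp only [colorW, rule, hx, if_false]
      split_ifs with hy
      · exact Or.inl rfl
      · rcases ih.2 hy with h' | h' <;> rw [h'] <;> simp

section tree

variable {G : SimpleGraph V} (hT : G.IsTree) (r : V)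

/-- The unique path from `v` to the root `r`. -/
noncomputable def P (v : V) : G.Walk v r := (hT.existsUnique_path v r).choose

lemma P_isPath (v : V) : (P hT r v).IsPath := (hT.existsUnique_path v r).choose_spec.1

lemma P_unique (v : V) (p : G.Walk v r) (hp : p.IsPath) : p = P hT r v :=
  (hT.existsUnique_path v r).choose_spec.2 p hp

include hT in
lemma path_unique' {u v : V} (p q : G.Walk u v) (hp : p.IsPath) (hq : q.IsPath) : p = q :=
  (hT.existsUnique_path u v).unique hp hq

/-- One of two adjacent vertices is the parent of the other. -/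
lemma parent (x y : V) (h : G.Adj x y) :
    P hT r x = SimpleGraph.Walk.cons h (P hT r y) ∨
      P hT r y = SimpleGraph.Walk.cons h.symm (P hT r x) := by
  classical
  by_cases hy : y ∈ (P hT r x).support
  · left
    have h1 : ((P hT r x).dropUntil y hy) = P hT r y :=
      P_unique hT r y _ ((P_isPath hT r x).dropUntil hy)
    have h2 : ((P hT r x).takeUntil y hy) = SimpleGraph.Walk.cons h SimpleGraph.Walk.nil := by
      apply path_unique' hT
      · exact (P_isPath hT r x).takeUntil hy
      · simp [h.ne]
    have h3 := (P hT r x).take_spec hy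
    rw [h1, h2] at h3
    rw [← h3]
    rfl
  · right
    symm
    apply P_unique hT r y
    exact (P_isPath hT r x).cons hy

lemma P_root : P hT r r = SimpleGraph.Walk.nil :=
  (P_unique hT r r SimpleGraph.Walk.nil SimpleGraph.Walk.IsPath.nil).symm

/-- The colouring. -/
noncomputable def col (f : V → ℕ) (v : V) : ℕ := colorW f (P hT r v)

lemma col_root (f : V → ℕ) : col hT r f r = 1 := by
  unfold col
  rw [P_root]
  rfl

lemma col_cons (f : V → ℕ) (x y : V) (h : G.Adj x y)
    (hp : P hT r x = SimpleGraph.Walk.cons h (P hT r y)) :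
    col hT r f x = rule (f x) (f y) (col hT r f y) := by
  unfold col
  rw [hp]
  rfl

lemma col_two (f : V → ℕ) (v : V) (h : f v = 2) : col hT r f v = 1 ∨ col hT r f v = 2 :=
  (colorW_range f _).1 h

lemma col_ne_two (f : V → ℕ) (v : V) (h : f v ≠ 2) : col hT r f v = 0 ∨ col hT r f v = 1 :=
  (colorW_range f _).2 h

lemma rule_ne (a b k : ℕ) (h2 : b = 2 → k = 1 ∨ k = 2) (h1 : b ≠ 2 → k = 0 ∨ k = 1) :
    rule a b k ≠ k := by
  unfold rule
  by_cases hb : b = 2
  · rcases h2 hb with rfl | rfl
    · split_ifs with ha h <;> simp_all
    · split_ifs with ha h <;> simp_all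
  · rcases h1 hb with rfl | rfl
    · split_ifs with ha h <;> simp_all
    · split_ifs with ha h <;> simp_all

lemma col_proper (f : V → ℕ) : IsColoring G (col hT r f) := by
  intro x y h
  rcases parent hT r x y h with hp | hp
  · rw [col_cons hT r f x y h hp]
    exact rule_ne _ _ _ (col_two hT r f y) (col_ne_two hT r f y)
  · rw [col_cons hT r f y x h.symm hp]
    exact (rule_ne _ _ _ (col_two hT r f x) (col_ne_two hT r f x)).symm

/-- Every vertex of colour `0` has a parent. -/
lemma exists_parent (f : V → ℕ) (x : V) (hx : col hT r f x = 0) :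
    ∃ y, ∃ h : G.Adj x y, P hT r x = SimpleGraph.Walk.cons h (P hT r y) := by
  rcases hP : P hT r x with _ | ⟨h, q⟩
  · rw [col_root] at hx
    exact absurd hx one_ne_zero
  · rename_i y
    refine ⟨y, h, ?_⟩
    have hq : q.IsPath := by
      have := P_isPath hT r x
      rw [hP] at this
      exact this.of_cons
    rw [P_unique hT r y q hq]

end tree

section main

variable [Fintype V] {G : SimpleGraph V} (hT : G.IsTree) (r : V)

open Classical in
/-- The vertex that pays for `x` with `f x = 1`: `x` itself if its colour is `1`, and otherwise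
its parent. -/
noncomputable def pay (f : V → ℕ) (x : V) : V :=
  if h : col hT r f x = 0 then (exists_parent hT r f x h).choose else x

open Classical in
/-- The up-color dominating set. -/
noncomputable def DD (f : V → ℕ) : Finset V :=
  (Finset.univ.filter (fun v => f v = 2)) ∪
    ((Finset.univ.filter (fun v => f v = 1)).image (pay hT r f)).filter (fun v => f v ≠ 2)

omit [Fintype V] in
lemma pay_spec (f : V → ℕ) (x : V) (hx : f x = 1) (h2 : f (pay hT r f x) ≠ 2) :
    col hT r f (pay hT r f x) = 1 := by
  unfold pay at *
  by_cases h : col hT r f x = 0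
  · rw [dif_pos h] at *
    set y := (exists_parent hT r f x h).choose with hy
    obtain ⟨hadj, hp⟩ := (exists_parent hT r f x h).choose_spec
    have h1 := col_cons hT r f x y hadj hp
    rw [h] at h1
    rcases col_ne_two hT r f y h2 with h3 | h3
    · rw [h3] at h1
      unfold rule at h1
      rw [if_neg (by omega), if_neg h2] at h1
      omega
    · exact h3
  · rw [dif_neg h] at *
    rcases col_ne_two hT r f x h2 with h3 | h3
    · exact absurd h3 h
    · exact h3

lemma DD_dom (f : V → ℕ) (hf : IsRoman G f) : UpDom G (col hT r f) (DD hT r f) := by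
  classical
  constructor
  · intro v hv
    have hv2 : f v ≠ 2 := fun h => hv (by
      unfold DD
      exact Finset.mem_union_left _ (Finset.mem_filter.mpr ⟨Finset.mem_univ v, h⟩))
    have hle := hf.1 v
    rcases (by omega : f v = 0 ∨ f v = 1) with h0 | h1
    · obtain ⟨w, hadj, hw⟩ := hf.2 v h0
      refine ⟨w, ?_, hadj, ?_⟩
      · unfold DD
        exact Finset.mem_union_left _ (Finset.mem_filter.mpr ⟨Finset.mem_univ w, hw⟩)
      · rcases parent hT r v w hadj with hp | hp
        · rw [col_cons hT r f v w hadj hp]
          unfold rule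
          rw [if_neg hv2, if_pos hw]
          rcases col_two hT r f w hw with h | h <;> omega
        · rw [col_cons hT r f w v hadj.symm hp]
          unfold rule
          rw [if_pos hw, if_neg (fun h => hv2 h.1)]
          rcases col_ne_two hT r f v hv2 with h | h <;> omega
    · by_cases hc : col hT r f v = 0
      · obtain ⟨hadj, hp⟩ := (exists_parent hT r f v hc).choose_spec
        have hpay : pay hT r f v = (exists_parent hT r f v hc).choose := by
          unfold pay
          rw [dif_pos hc]
        rw [← hpay] at hadj
        refine ⟨pay hT r f v, ?_, hadj, ?_⟩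
        · unfold DD
          by_cases h2 : f (pay hT r f v) = 2
          · exact Finset.mem_union_left _ (Finset.mem_filter.mpr ⟨Finset.mem_univ _, h2⟩)
          · refine Finset.mem_union_right _ (Finset.mem_filter.mpr ⟨?_, h2⟩)
            exact Finset.mem_image_of_mem _ (Finset.mem_filter.mpr ⟨Finset.mem_univ v, h1⟩)
        · rw [hc]
          by_cases h2 : f (pay hT r f v) = 2
          · rcases col_two hT r f _ h2 with h | h <;> omega
          · rw [pay_spec hT r f v h1 h2]
            norm_num
      · exfalso
        apply hv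
        unfold DD
        have hpay : pay hT r f v = v := by
          unfold pay
          rw [dif_neg hc]
        refine Finset.mem_union_right _ (Finset.mem_filter.mpr ⟨?_, hv2⟩)
        rw [Finset.mem_image]
        exact ⟨v, Finset.mem_filter.mpr ⟨Finset.mem_univ v, h1⟩, hpay⟩
  · intro d hd
    unfold DD at hd
    rcases Finset.mem_union.mp hd with h | h
    · rcases col_two hT r f d (Finset.mem_filter.mp h).2 with h' | h' <;> omega
    · obtain ⟨h1, h2⟩ := Finset.mem_filter.mp h
      obtain ⟨x, hx, rfl⟩ := Finset.mem_image.mp h1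
      rw [pay_spec hT r f x (Finset.mem_filter.mp hx).2 h2]
      norm_num

open Classical in
/-- The weight of the set. -/
lemma DD_weight (f : V → ℕ) :
    ∑ d ∈ DD hT r f, col hT r f d ≤
      ∑ v ∈ Finset.univ.filter (fun v => f v = 2), col hT r f v +
        (((Finset.univ.filter (fun v => f v = 1)).image (pay hT r f)).filter
          (fun v => f v ≠ 2)).card := by
  unfold DD
  have hu : ∀ (A B : Finset V) (g : V → ℕ), ∑ d ∈ A ∪ B, g d ≤ ∑ d ∈ A, g d + ∑ d ∈ B, g d := by
    intro A B g
    rw [← Finset.sum_union_inter]
    exact Nat.le_add_right _ _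
  refine (hu _ _ _).trans ?_
  apply Nat.add_le_add_left
  rw [Finset.card_eq_sum_ones]
  apply Finset.sum_le_sum
  intro d hd
  obtain ⟨h1, h2⟩ := Finset.mem_filter.mp hd
  obtain ⟨x, hx, rfl⟩ := Finset.mem_image.mp h1
  exact (pay_spec hT r f x (Finset.mem_filter.mp hx).2 h2).le

open Classical in
lemma sum_f (f : V → ℕ) (hf : IsRoman G f) :
    ∑ v, f v = 2 * (Finset.univ.filter (fun v => f v = 2)).card
      + (Finset.univ.filter (fun v => f v = 1)).card := by
  rw [Finset.card_filter, Finset.card_filter, Finset.mul_sum, ← Finset.sum_add_distrib]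
  apply Finset.sum_congr rfl
  intro v _
  have := hf.1 v
  interval_cases f v <;> simp

lemma omega_le (f : V → ℕ) (hf : IsRoman G f) :
    omegaUC G ≤ ∑ d ∈ DD hT r f, col hT r f d :=
  Nat.sInf_le ⟨col hT r f, DD hT r f, col_proper hT r f, DD_dom hT r f hf, rfl⟩

end main

lemma gammaR_mem [Fintype V] (G : SimpleGraph V) :
    ∃ f : V → ℕ, IsRoman G f ∧ ∑ v, f v = gammaR G := by
  have hne : {w : ℕ | ∃ f : V → ℕ, IsRoman G f ∧ ∑ v, f v = w}.Nonempty :=
    ⟨_, fun _ => 1, ⟨fun _ => by norm_num, fun _ h => absurd h (by norm_num)⟩, rfl⟩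
  exact Nat.sInf_mem hne

/-- **Q1 is true.** For every finite tree `Ω_uc(T) ≤ γ_r(T)`, and even `Ω_uc(T) + 1 ≤ γ_r(T)` when
`T` has at least two vertices. -/
theorem result :
    (∀ (V : Type) (_ : Fintype V) (T : SimpleGraph V), T.IsTree → omegaUC T ≤ gammaR T) ∧
    (∀ (V : Type) (_ : Fintype V) (T : SimpleGraph V), T.IsTree → 2 ≤ Fintype.card V →
      omegaUC T + 1 ≤ gammaR T) := by
  classical
  -- a general bound for a Roman dominating function and a root
  have key : ∀ (V : Type) (_ : Fintype V) (T : SimpleGraph V) (hT : T.IsTree) (r : V)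
      (f : V → ℕ), IsRoman T f → (f r = 2 → omegaUC T + 1 ≤ ∑ v, f v) ∧
        omegaUC T ≤ ∑ v, f v := by
    intro V _ T hT r f hf
    have h1 := (omega_le hT r f hf).trans (DD_weight hT r f)
    have h2 : (((Finset.univ.filter (fun v => f v = 1)).image (pay hT r f)).filter
        (fun v => f v ≠ 2)).card ≤ (Finset.univ.filter (fun v => f v = 1)).card :=
      (Finset.card_filter_le _ _).trans Finset.card_image_le
    have h3 := sum_f (G := T) f hf
    constructor
    · intro hr
      have hmem : r ∈ Finset.univ.filter (fun v => f v = 2) :=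
        Finset.mem_filter.mpr ⟨Finset.mem_univ r, hr⟩
      have h4 : ∑ v ∈ Finset.univ.filter (fun v => f v = 2), col hT r f v + 1
          ≤ 2 * (Finset.univ.filter (fun v => f v = 2)).card := by
        rw [← Finset.add_sum_erase _ _ hmem, col_root]
        have h5 : ∑ v ∈ (Finset.univ.filter (fun v => f v = 2)).erase r, col hT r f v
            ≤ ∑ v ∈ (Finset.univ.filter (fun v => f v = 2)).erase r, 2 := by
          apply Finset.sum_le_sum
          intro v hv
          have := (Finset.mem_filter.mp (Finset.mem_of_mem_erase hv)).2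
          rcases col_two hT r f v this with h | h <;> omega
        rw [Finset.sum_const, smul_eq_mul, Finset.card_erase_of_mem hmem] at h5
        have h6 : 1 ≤ (Finset.univ.filter (fun v => f v = 2)).card :=
          Finset.card_pos.mpr ⟨r, hmem⟩
        omega
      omega
    · have h4 : ∑ v ∈ Finset.univ.filter (fun v => f v = 2), col hT r f v
          ≤ 2 * (Finset.univ.filter (fun v => f v = 2)).card := by
        have h5 : ∑ v ∈ Finset.univ.filter (fun v => f v = 2), col hT r f v
            ≤ ∑ v ∈ Finset.univ.filter (fun v => f v = 2), 2 := by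
          apply Finset.sum_le_sum
          intro v hv
          rcases col_two hT r f v (Finset.mem_filter.mp hv).2 with h | h <;> omega
        rw [Finset.sum_const, smul_eq_mul] at h5
        omega
      omega
  constructor
  · intro V _ T hT
    obtain ⟨f, hf, hsum⟩ := gammaR_mem T
    obtain ⟨r⟩ := hT.connected.nonempty
    rw [← hsum]
    exact (key V _ T hT r f hf).2
  · intro V _ T hT hcard
    obtain ⟨f, hf, hsum⟩ := gammaR_mem T
    rw [← hsum]
    by_cases hex : ∃ r, f r = 2
    · obtain ⟨r, hr⟩ := hex
      exact (key V _ T hT r f hf).1 hr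
    · push Not at hex
      -- all values are one
      have hf1 : ∀ v, f v = 1 := by
        intro v
        have h1 := hf.1 v
        have h2 := hex v
        by_contra h3
        have h0 : f v = 0 := by omega
        obtain ⟨w, _, hw⟩ := hf.2 v h0
        exact hex w hw
      obtain ⟨r⟩ := hT.connected.nonempty
      have h1 := omega_le hT r f hf
      have h2 := DD_weight hT r f
      have h3 : Finset.univ.filter (fun v => f v = 2) = ∅ := by
        apply Finset.filter_eq_empty_iff.mpr
        intro v _
        exact hex v
      rw [h3, Finset.sum_empty, zero_add] at h2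
      -- some vertex has colour zero, hence is not in the image
      obtain ⟨s, hs⟩ : ∃ s, s ≠ r := by
        by_contra hno
        push Not at hno
        have : Fintype.card V ≤ 1 := Fintype.card_le_one_iff.mpr
          (fun a b => (hno a).trans (hno b).symm)
        omega
      obtain ⟨w, hw⟩ : ∃ w, T.Adj r w := by
        obtain ⟨p⟩ := hT.connected.preconnected r s
        cases p with
        | nil => exact absurd rfl hs
        | cons h _ => exact ⟨_, h⟩
      have hcw : col hT r f w = 0 := by
        have h4 := col_proper hT r f r w hw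
        rw [col_root] at h4
        rcases col_ne_two hT r f w (hex w) with h | h
        · exact h
        · exact absurd h.symm h4
      have h5 : ((Finset.univ.filter (fun v => f v = 1)).image (pay hT r f)).filter
          (fun v => f v ≠ 2) ⊆ Finset.univ.erase w := by
        intro d hd
        obtain ⟨h6, h7⟩ := Finset.mem_filter.mp hd
        obtain ⟨x, hx, rfl⟩ := Finset.mem_image.mp h6
        refine Finset.mem_erase.mpr ⟨fun e => ?_, Finset.mem_univ _⟩
        have h8 := pay_spec hT r f x (Finset.mem_filter.mp hx).2 h7
        rw [e, hcw] at h8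
        exact absurd h8 (by norm_num)
      have h6 := Finset.card_le_card h5
      rw [Finset.card_erase_of_mem (Finset.mem_univ w), Finset.card_univ] at h6
      have h7 : ∑ v, f v = Fintype.card V := by
        simp [hf1]
      omega

end Pool.Agent.Results.MP_ca77af_co.RomanBound
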